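import Pool.Agent.H20.SM.TW

/-!
# MP_347b49_nt, row BLw: the order of a zero from the mean square on a circle
-/

set_option autoImplicit false

open Complex Filter Topology MeasureTheory

namespace Pool.Agent.H91.SM

open Pool.Agent.H20.SM

/-- division of an entire function by a power -/
theorem exists_div (f : ℂ → ℂ) (w : ℂ) (n : ℕ) (hf : Differentiable ℂ f)
    (h : (n : ℕ∞) ≤ analyticOrderAt f w) :
    ∃ g : ℂ → ℂ, Differentiable ℂ g ∧ ∀ s, f s = (s - w) ^ n * g s := by
  obtain ⟨g, hg, hfg⟩ := (natCast_le_analyticOrderAt (hf.analyticAt w)).mp h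
  set G : ℂ → ℂ := Function.update (fun s => f s / (s - w) ^ n) w (g w) with hG
  have hne : ∀ s, s ≠ w → G s = f s / (s - w) ^ n := fun s hs => by
    rw [hG, Function.update_of_ne hs]
  have hw : G w = g w := by rw [hG, Function.update_self]
  have hev : G =ᶠ[𝓝 w] g := by
    filter_upwards [hfg] with s hs
    rcases eq_or_ne s w with rfl | hsw
    · exact hw
    · rw [hne s hsw, hs, smul_eq_mul, mul_div_assoc]
      rw [mul_div_cancel₀]
      exact pow_ne_zero _ (sub_ne_zero.mpr hsw)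
  refine ⟨G, ?_, ?_⟩
  · intro s
    rcases eq_or_ne s w with rfl | hsw
    · exact (hg.congr hev.symm).differentiableAt
    · have h1 : (fun s => f s / (s - w) ^ n) =ᶠ[𝓝 s] G := by
        filter_upwards [isOpen_ne.mem_nhds hsw] with z hz
        exact (hne z hz).symm
      refine DifferentiableAt.congr_of_eventuallyEq ?_ h1.symm
      refine (hf s).div (by fun_prop) ?_
      exact pow_ne_zero _ (sub_ne_zero.mpr hsw)
  · intro s
    rcases eq_or_ne s w with rfl | hsw
    · rw [hw]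
      have := hfg.self_of_nhds
      simpa [smul_eq_mul] using this
    · rw [hne s hsw, mul_div_cancel₀]
      exact pow_ne_zero _ (sub_ne_zero.mpr hsw)

theorem pf_BLw : T_BLw := by
  intro f s₀ w r k hf hr hw hk
  have hk' : ((k + 1 : ℕ) : ℕ∞) ≤ analyticOrderAt f w := by
    rw [not_le] at hk
    push_cast
    exact Order.add_one_le_of_lt hk
  obtain ⟨g, hg, hfg⟩ := exists_div f w (k + 1) hf hk'
  set F : ℂ → ℂ := fun s => g s *
    ((((2 * r : ℝ) : ℂ) ^ 2 - (starRingEnd ℂ) (w - s₀) * (s - s₀)) / ((2 * r : ℝ) : ℂ)) ^ (k + 1)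
    with hF
  have hρ : (0 : ℝ) < 2 * r := by positivity
  have hρ' : ((2 * r : ℝ) : ℂ) ≠ 0 := by exact_mod_cast hρ.ne'
  have hFd : Differentiable ℂ fun s => F s ^ 2 := by
    have h1 : Differentiable ℂ F := by
      refine hg.mul ?_
      fun_prop
    exact h1.pow 2
  have hmean := DiffContOnCl.circleAverage (f := fun s => F s ^ 2) (c := s₀)
    (R := 2 * r) hFd.diffContOnCl
  have hcirc : ∀ θ : ℝ, ‖F (circleMap s₀ (2 * r) θ)‖ = ‖f (circleMap s₀ (2 * r) θ)‖ := by
    intro θ
    set z : ℂ := ((2 * r : ℝ) : ℂ) * cexp (θ * I) with hz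
    have h1 : circleMap s₀ (2 * r) θ = s₀ + z := by rw [circleMap, hz]
    have hzn : ‖z‖ = 2 * r := by
      rw [hz, norm_mul, Complex.norm_real, Complex.norm_exp_ofReal_mul_I, mul_one,
        Real.norm_of_nonneg hρ.le]
    have h2 : ((2 * r : ℝ) : ℂ) ^ 2 = z * (starRingEnd ℂ) z := by
      rw [Complex.mul_conj, Complex.normSq_eq_norm_sq, hzn]
      push_cast
      ring
    have h3 : ((2 * r : ℝ) : ℂ) ^ 2 - (starRingEnd ℂ) (w - s₀) * z =
        z * (starRingEnd ℂ) (s₀ + z - w) := by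
      rw [h2]
      simp only [map_sub, map_add]
      ring
    have h4 : ‖(((2 * r : ℝ) : ℂ) ^ 2 - (starRingEnd ℂ) (w - s₀) * z) /
        ((2 * r : ℝ) : ℂ)‖ = ‖s₀ + z - w‖ := by
      rw [h3, norm_div, norm_mul, Complex.norm_conj, hzn, Complex.norm_real,
        Real.norm_of_nonneg hρ.le, mul_div_cancel_left₀ _ hρ.ne']
    rw [h1, hF, hfg (s₀ + z)]
    simp only [add_sub_cancel_left]
    rw [norm_mul, norm_mul, norm_pow, norm_pow, h4, mul_comm]
  have hcen : ‖F s₀‖ = 2 ^ (k + 1) * ‖f s₀‖ := by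
    rw [hF, hfg s₀]
    simp only [sub_self, mul_zero, sub_zero]
    have h5 : ‖s₀ - w‖ = r := by rw [norm_sub_rev, hw]
    rw [norm_mul, norm_mul, norm_pow, norm_pow, h5, norm_div, norm_pow, Complex.norm_real,
      Real.norm_of_nonneg hρ.le, sq, mul_self_div_self, mul_pow]
    ring
  have h6 : ‖F s₀ ^ 2‖ = 4 ^ (k + 1) * ‖f s₀‖ ^ 2 := by
    rw [norm_pow, hcen, mul_pow, ← pow_mul, mul_comm (k + 1) 2, pow_mul]
    norm_num
  rw [← h6, ← hmean, Real.circleAverage, norm_smul]
  have h7 : ‖(2 * Real.pi)⁻¹‖ = 1 / (2 * Real.pi) := by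
    rw [Real.norm_of_nonneg (by positivity), one_div]
  rw [h7]
  refine mul_le_mul_of_nonneg_left ?_ (by positivity)
  refine (intervalIntegral.norm_integral_le_integral_norm (by positivity)).trans (le_of_eq ?_)
  refine intervalIntegral.integral_congr fun θ _ => ?_
  rw [norm_pow, hcirc θ, circleMap]
  push_cast
  rfl

end Pool.Agent.H91.SM
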