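import Pool.Agent.H20.SM.TV
import Pool.Agent.H65.CRG.FG

/-!
# MP_347b49_nt, row FGw: values, orders and zeros of the Artin L-functions, a cofinal family

After the row FGt (helper47), with the orders of the zeros.
-/

set_option autoImplicit false

open NumberField NumberField.InfinitePlace Complex Filter Topology MeasureTheory Set

namespace Pool.Agent.H91.SM

open Pool.Agent.H28.RC Pool.Agent.H25.HK Pool.Agent.H37.CV Pool.Agent.H65.CRZ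
open Pool.Agent.H65.CRG Pool.Agent.H20.SM

/-- the sum of an indicator -/
private theorem fgw_ind {α : Type} {S : Set α} (hS : S.Finite) (P : α → Prop)
    [DecidablePred P] : ∑ᶠ a ∈ S, (if P a then (1 : ℝ) else 0) =
      ({a | a ∈ S ∧ P a}.ncard : ℝ) := by
  rw [finsum_mem_eq_finite_toFinset_sum _ hS, Finset.sum_boole, ← Set.ncard_coe_finset]
  have h : (↑(hS.toFinset.filter fun a => P a) : Set α) = {a | a ∈ S ∧ P a} := by
    ext a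
    simp only [Finset.coe_filter, Set.Finite.mem_toFinset]
  rw [h]

private theorem fgw_one_lt {F : Type} [Field F] [NumberField F] {A q : ℕ} {x : ℝ} (hx : 3 ≤ x)
    (h : Sp F A x q) : 1 < q := by
  have hlog : 1 ≤ Real.log x := by
    rw [← Real.log_exp 1]
    refine Real.log_le_log (Real.exp_pos _) ?_
    have := Real.exp_one_lt_d9
    linarith
  have hcard : (1 : ℝ) ≤ (q.primeFactors.card : ℝ) := (one_le_pow₀ hlog).trans h.lo
  have hcard' : 0 < q.primeFactors.card := by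
    have : (0 : ℝ) < (q.primeFactors.card : ℝ) := by linarith
    exact_mod_cast this
  obtain ⟨p, hp⟩ := Finset.card_pos.mp hcard'
  have h1 := (Nat.prime_of_mem_primeFactors hp).one_lt
  exact h1.trans_le (Nat.le_of_dvd (Nat.pos_of_ne_zero h.sq.1.ne_zero)
    (Nat.dvd_of_mem_primeFactors hp))

/-- the number of the elements with and without a property -/
private theorem fgw_compl {α : Type} {S : Set α} (hS : S.Finite) (P : α → Prop) :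
    (S.ncard : ℝ) = ({a | a ∈ S ∧ P a}.ncard : ℝ) + ({a | a ∈ S ∧ ¬ P a}.ncard : ℝ) := by
  have h : S = {a | a ∈ S ∧ P a} ∪ {a | a ∈ S ∧ ¬ P a} := by
    ext a
    simp only [Set.mem_union, Set.mem_ofPred_eq]
    tauto
  have hd : Disjoint {a | a ∈ S ∧ P a} {a | a ∈ S ∧ ¬ P a} := by
    rw [Set.disjoint_left]
    rintro a ⟨-, h1⟩ ⟨-, h2⟩
    exact h2 h1
  have h2 := Set.ncard_union_eq hd (hS.subset fun a ha => ha.1) (hS.subset fun a ha => ha.1)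
  rw [← h] at h2
  rw [h2]
  push_cast
  rfl

open scoped Classical in
/-- the bound of the orders -/
private theorem fgw_kap (hOR : T_ORw) : ∃ κ : ℝ → ℕ, ∀ ε : ℝ, 0 < ε →
    ∀ (F : Type) [Field F] [NumberField F] [IsTotallyComplex F]
    [IsGalois ℚ F], ∃ A₀ : ℕ, ∀ (A : ℕ) (T : ℝ), A₀ ≤ A → 0 < T →
    ∃ x₀ : ℝ, ∀ (x : ℝ) (q : ℕ), x₀ ≤ x → Sp F A x q → ∀ t : ℝ, |t| ≤ T →
      ({χ | χ ∈ Pr F (qi F q) ∧ ¬ analyticOrderAt (Zx χ) (1 / 2 + t * I) ≤ (κ ε : ℕ∞)}.ncard :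
        ℝ) ≤ min ε 1 / 20 * (Pr F (qi F q)).ncard := by
  have h : ∀ ε : ℝ, ∃ k : ℕ, 0 < ε → ∀ (F : Type) [Field F] [NumberField F]
      [IsTotallyComplex F]
    [IsGalois ℚ F], ∃ A₀ : ℕ, ∀ (A : ℕ) (T : ℝ), A₀ ≤ A → 0 < T →
    ∃ x₀ : ℝ, ∀ (x : ℝ) (q : ℕ), x₀ ≤ x → Sp F A x q → ∀ t : ℝ, |t| ≤ T →
      ({χ | χ ∈ Pr F (qi F q) ∧ ¬ analyticOrderAt (Zx χ) (1 / 2 + t * I) ≤ (k : ℕ∞)}.ncard :
        ℝ) ≤ min ε 1 / 20 * (Pr F (qi F q)).ncard := by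
    intro ε
    by_cases hε : 0 < ε
    · obtain ⟨k, hk⟩ := hOR (min ε 1 / 20) (by positivity)
      exact ⟨k, fun _ => hk⟩
    · exact ⟨0, fun h0 => absurd h0 hε⟩
  choose κ hκ using h
  exact ⟨κ, hκ⟩

open scoped Classical in
theorem pf_FGv (hTF : T_TFz) (hFH : T_FHz) (hFZ : T_FZz) (hFIN : T_FINt) (hOR : T_ORw) :
    T_FGv := by
  obtain ⟨κ, hκ⟩ := fgw_kap hOR
  refine ⟨κ, ?_⟩
  intro F _ _ _ _ ε₀ hε₀
  obtain ⟨d, hd⟩ : ∃ d : ℝ, d = (Module.finrank ℚ F : ℝ) := ⟨_, rfl⟩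
  have hd0' : 0 < Module.finrank ℚ F := Module.finrank_pos
  have hd1 : 1 ≤ d := by rw [hd]; exact_mod_cast hd0'
  have hd0 : 0 < d := by linarith
  obtain ⟨A₀, hFH⟩ := hFH F
  obtain ⟨A₁, hFIN⟩ := hFIN F
  obtain ⟨A₂, hOF⟩ := hκ ε₀ hε₀ F
  refine ⟨max (max (max A₀ 1) A₁) A₂, fun A hA'' => ?_⟩
  have hA' : max (max A₀ 1) A₁ ≤ A := (le_max_left _ _).trans hA''
  have hA : max A₀ 1 ≤ A := (le_max_left _ _).trans hA'
  obtain ⟨T₁, hT₁, hFH⟩ := hFH A ((le_max_left _ _).trans hA)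
  obtain ⟨e, he⟩ : ∃ e : ℝ, e = min (min ε₀ (1 / 10)) (ε₀ / 4) := ⟨_, rfl⟩
  have he0 : 0 < e := by
    rw [he]
    exact lt_min (lt_min hε₀ (by norm_num)) (by linarith)
  have heε : e ≤ ε₀ := by rw [he]; exact (min_le_left _ _).trans (min_le_left _ _)
  have he2 : e ≤ 1 / 10 := by rw [he]; exact (min_le_left _ _).trans (min_le_right _ _)
  have heε4 : 4 * e ≤ ε₀ := by
    have : e ≤ ε₀ / 4 := by rw [he]; exact min_le_right _ _
    linarith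
  obtain ⟨x₁, hTF⟩ := hTF F A e ((le_max_right _ _).trans hA) he0
  obtain ⟨T₂, hT₂, hFZ⟩ := hFZ F A e he0
  refine ⟨max T₁ T₂, lt_of_lt_of_le hT₁ (le_max_left _ _), fun T hT => ?_⟩
  have hT0 : 0 < T := lt_of_lt_of_le hT₁ ((le_max_left _ _).trans hT)
  obtain ⟨x₂, hFH⟩ := hFH T ((le_max_left _ _).trans hT)
  obtain ⟨x₃, hFZ⟩ := hFZ T ((le_max_right _ _).trans hT)
  obtain ⟨x₄, hFIN⟩ := hFIN A e T ((le_max_right _ _).trans hA') he0 hT0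
  obtain ⟨x₅, hOF⟩ := hOF A T ((le_max_right _ _).trans hA'') hT0
  refine ⟨max (max (max (max x₁ 3) (max x₂ x₃)) x₄) x₅, fun x q hx'' hq L _ _ _ _ hL => ?_⟩
  have hx' : max (max (max x₁ 3) (max x₂ x₃)) x₄ ≤ x := (le_max_left _ _).trans hx''
  have hx : max (max x₁ 3) (max x₂ x₃) ≤ x := (le_max_left _ _).trans hx'
  obtain ⟨-, -, hFIN⟩ := hFIN x q ((le_max_right _ _).trans hx') hq
  have hOF := hOF x q ((le_max_right _ _).trans hx'') hq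
  have hx1 : x₁ ≤ x := ((le_max_left _ _).trans (le_max_left _ _)).trans hx
  have hx3 : (3 : ℝ) ≤ x := ((le_max_right _ _).trans (le_max_left _ _)).trans hx
  obtain ⟨hIf, U, Λ, hUI, hU1, hU2, hU3, hU4⟩ := hTF x q hx1 hq L hL
  obtain ⟨hH1, hH3⟩ := hFH x q (((le_max_left _ _).trans (le_max_right _ _)).trans hx) hq
  obtain ⟨hPf, hPpos, hZ⟩ := hFZ x q (((le_max_right _ _).trans (le_max_right _ _)).trans hx) hq
  rw [← hd] at hH3 hU3
  simp only [← hd] at hU4 hZ ⊢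
  obtain ⟨X, hX⟩ : ∃ X : ℝ, X = T / Real.pi * (d / 2 * Real.log q) := ⟨_, rfl⟩
  have hlq : 0 < Real.log q := Real.log_pos (by exact_mod_cast fgw_one_lt hx3 hq)
  have hX0 : 0 < X := by
    rw [hX]
    have := Real.pi_pos
    positivity
  rw [← hX] at hH3
  simp only [← hX] at hZ ⊢
  obtain ⟨n, hn⟩ : ∃ n : ℝ, n = ((Pr F (qi F q)).ncard : ℝ) := ⟨_, rfl⟩
  have hn0 : 0 < n := by rw [hn]; exact_mod_cast hPpos
  rw [← hn] at hH3 hU3 hU4
  have hUf : U.Finite := hIf.subset hUI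
  have hIrr : 0 ≤ ((Pool.Agent.H37.CA.Irr (L ≃ₐ[ℚ] L)).ncard : ℝ) := Nat.cast_nonneg _
  -- the sums
  have hw2 := hU4 (fun g => ((SZ g 0 T).ncard : ℝ)) ((1 + e) * X) (fun χ hχ =>
    ⟨Nat.cast_nonneg _, ((hH1 χ hχ).2).trans (hZ χ hχ).2.2⟩)
  have hzcU : ∑ᶠ f ∈ U, zc (Λ f) (St T) ≤ (U.ncard : ℝ) * ((1 + e) * X) := by
    have h1 : ∑ᶠ f ∈ U, zc (Λ f) (St T) ≤ ∑ᶠ f ∈ U, ((1 + e) * X) := by
      refine fsum_mono hUf fun f hf => ?_
      obtain ⟨_, _, ⟨χ, hχ, hΛ⟩, _⟩ := hU2 f hf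
      rw [hΛ]
      exact (hZ χ hχ).2.2
    refine h1.trans (le_of_eq ?_)
    rw [finsum_mem_eq_finite_toFinset_sum _ hUf, Finset.sum_const, nsmul_eq_mul,
      Set.ncard_eq_toFinset_card _ hUf]
  have hu0 : (0 : ℝ) ≤ (U.ncard : ℝ) := Nat.cast_nonneg _
  have hUpos : 0 < U.ncard := by
    rcases Nat.eq_zero_or_pos U.ncard with h0 | h0
    · exfalso
      have hUe : U = ∅ := (Set.ncard_eq_zero hUf).1 h0
      have h1 := hH3.trans hw2
      rw [hUe, finsum_mem_empty, mul_zero, zero_add] at h1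
      have h2 : 0 < X * n := mul_pos hX0 hn0
      have h3 : 345 / 1000 * (X * n) ≤ e * (1 + e) * (X * n) := by nlinarith
      have h4 := le_of_mul_le_mul_right h3 h2
      nlinarith
    · exact h0
  -- the values
  have hval : ∀ t : ℝ, |t| ≤ T → (1 / 3 - ε₀) *
      (Pool.Agent.H37.CA.Irr (L ≃ₐ[ℚ] L)).ncard ≤
        ({f | f ∈ U ∧ Λ f (1 / 2 + t * I) ≠ 0}.ncard : ℝ) := by
    intro t ht
    have v1 := hFIN t ht
    have v2 := hU4 (fun g => if g (1 / 2 + t * I) ≠ 0 then (1 : ℝ) else 0) 1 (fun χ _ => by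
      split_ifs <;> norm_num)
    rw [fgw_ind hPf (fun χ => Zx χ (1 / 2 + t * I) ≠ 0),
      fgw_ind hUf (fun f => Λ f (1 / 2 + t * I) ≠ 0)] at v2
    rw [← hn] at v1
    obtain ⟨R, hR⟩ : ∃ R : ℝ, R = ({f | f ∈ U ∧ Λ f (1 / 2 + t * I) ≠ 0}.ncard : ℝ) :=
      ⟨_, rfl⟩
    obtain ⟨J, hJ⟩ : ∃ J : ℝ, J = ((Pool.Agent.H37.CA.Irr (L ≃ₐ[ℚ] L)).ncard : ℝ) := ⟨_, rfl⟩
    rw [← hR] at v2 ⊢
    rw [← hJ] at hU1 hIrr ⊢
    have hR0 : 0 ≤ R := by rw [hR]; exact Nat.cast_nonneg _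
    rcases le_or_gt (1 / 3 : ℝ) ε₀ with hle | hgt
    · exact (mul_nonpos_of_nonpos_of_nonneg (by linarith) hIrr).trans hR0
    · have v3 : (1 / 3 - 2 * e) * n ≤ d * R := by linarith
      have v4 : d * ((1 - e) * J) ≤ (1 + e) * n :=
        (mul_le_mul_of_nonneg_left hU1 hd0.le).trans hU3
      have v5 : (1 / 3 - ε₀) * (1 + e) ≤ (1 / 3 - 2 * e) * (1 - e) := by nlinarith
      have v6 : d * ((1 - e) * ((1 / 3 - ε₀) * J)) ≤ d * ((1 - e) * R) := by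
        calc d * ((1 - e) * ((1 / 3 - ε₀) * J)) = (1 / 3 - ε₀) * (d * ((1 - e) * J)) := by ring
          _ ≤ (1 / 3 - ε₀) * ((1 + e) * n) := mul_le_mul_of_nonneg_left v4 (by linarith)
          _ = ((1 / 3 - ε₀) * (1 + e)) * n := by ring
          _ ≤ ((1 / 3 - 2 * e) * (1 - e)) * n := mul_le_mul_of_nonneg_right v5 hn0.le
          _ = (1 - e) * ((1 / 3 - 2 * e) * n) := by ring
          _ ≤ (1 - e) * (d * R) := mul_le_mul_of_nonneg_left v3 (by linarith)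
          _ = d * ((1 - e) * R) := by ring
      have v7 := le_of_mul_le_mul_left v6 hd0
      exact le_of_mul_le_mul_left v7 (by linarith)
  -- the orders
  have hord : ∀ t : ℝ, |t| ≤ T → (1 - ε₀) *
      (Pool.Agent.H37.CA.Irr (L ≃ₐ[ℚ] L)).ncard ≤
        ({f | f ∈ U ∧ analyticOrderAt (Λ f) (1 / 2 + t * I) ≤ (κ ε₀ : ℕ∞)}.ncard : ℝ) := by
    intro t ht
    have v1 := hOF t ht
    have v2 := hU4 (fun g => if analyticOrderAt g (1 / 2 + t * I) ≤ (κ ε₀ : ℕ∞) then (1 : ℝ)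
      else 0) 1 (fun χ _ => by split_ifs <;> norm_num)
    rw [fgw_ind hPf (fun χ => analyticOrderAt (Zx χ) (1 / 2 + t * I) ≤ (κ ε₀ : ℕ∞)),
      fgw_ind hUf (fun f => analyticOrderAt (Λ f) (1 / 2 + t * I) ≤ (κ ε₀ : ℕ∞))] at v2
    have v0 := fgw_compl hPf (fun χ => analyticOrderAt (Zx χ) (1 / 2 + t * I) ≤ (κ ε₀ : ℕ∞))
    rw [← hn] at v1 v0
    obtain ⟨G, hG⟩ : ∃ G : ℝ, G = ({χ | χ ∈ Pr F (qi F q) ∧
      analyticOrderAt (Zx χ) (1 / 2 + t * I) ≤ (κ ε₀ : ℕ∞)}.ncard : ℝ) := ⟨_, rfl⟩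
    obtain ⟨R, hR⟩ : ∃ R : ℝ, R = ({f | f ∈ U ∧
      analyticOrderAt (Λ f) (1 / 2 + t * I) ≤ (κ ε₀ : ℕ∞)}.ncard : ℝ) := ⟨_, rfl⟩
    obtain ⟨J, hJ⟩ : ∃ J : ℝ, J = ((Pool.Agent.H37.CA.Irr (L ≃ₐ[ℚ] L)).ncard : ℝ) := ⟨_, rfl⟩
    rw [← hG] at v0 v2
    rw [← hR] at v2 ⊢
    rw [← hJ] at hU1 hIrr ⊢
    have hR0 : 0 ≤ R := by rw [hR]; exact Nat.cast_nonneg _
    have hm1 : min ε₀ 1 ≤ ε₀ := min_le_left _ _
    have hm2 : min ε₀ 1 ≤ 1 := min_le_right _ _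
    have hm0 : 0 < min ε₀ 1 := lt_min hε₀ one_pos
    rcases le_or_gt (1 : ℝ) ε₀ with hle | hgt
    · exact (mul_nonpos_of_nonpos_of_nonneg (by linarith) hIrr).trans hR0
    · have hb : min ε₀ 1 / 20 * n ≤ ε₀ / 20 * n :=
        mul_le_mul_of_nonneg_right (by linarith) hn0.le
      have v3 : (1 - ε₀ / 20 - e) * n ≤ d * R := by linarith
      have v4 : d * ((1 - e) * J) ≤ (1 + e) * n :=
        (mul_le_mul_of_nonneg_left hU1 hd0.le).trans hU3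
      have v5 : (1 - ε₀) * (1 + e) ≤ (1 - ε₀ / 20 - e) * (1 - e) := by nlinarith
      have v6 : d * ((1 - e) * ((1 - ε₀) * J)) ≤ d * ((1 - e) * R) := by
        calc d * ((1 - e) * ((1 - ε₀) * J)) = (1 - ε₀) * (d * ((1 - e) * J)) := by ring
          _ ≤ (1 - ε₀) * ((1 + e) * n) := mul_le_mul_of_nonneg_left v4 (by linarith)
          _ = ((1 - ε₀) * (1 + e)) * n := by ring
          _ ≤ ((1 - ε₀ / 20 - e) * (1 - e)) * n := mul_le_mul_of_nonneg_right v5 hn0.le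
          _ = (1 - e) * ((1 - ε₀ / 20 - e) * n) := by ring
          _ ≤ (1 - e) * (d * R) := mul_le_mul_of_nonneg_left v3 (by linarith)
          _ = d * ((1 - e) * R) := by ring
      have v7 := le_of_mul_le_mul_left v6 hd0
      exact le_of_mul_le_mul_left v7 (by linarith)
  refine ⟨hIf, U, Λ, hUI, ?_, hUpos, fun f hf => ?_, ?_⟩
  · refine le_trans ?_ hU1
    exact mul_le_mul_of_nonneg_right (by linarith) hIrr
  · obtain ⟨h1, h2, ⟨χ, hχ, hΛ⟩, h3, h4⟩ := hU2 f hf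
    refine ⟨h1, h2, h3, h4, ?_, ?_⟩
    · rw [hΛ]; exact (hZ χ hχ).2.1
    · rw [hΛ]
      refine (hZ χ hχ).2.2.trans ?_
      exact mul_le_mul_of_nonneg_right (by linarith) hX0.le
  · have hSnn : 0 ≤ ∑ᶠ f ∈ U, ((SZ (Λ f) 0 T).ncard : ℝ) :=
      fsum_nonneg hUf fun _ _ => Nat.cast_nonneg _
    have hznn : 0 ≤ ∑ᶠ f ∈ U, zc (Λ f) (St T) := by
      refine fsum_nonneg hUf fun f hf => ?_
      obtain ⟨_, _, ⟨χ, hχ, hΛ⟩, _⟩ := hU2 f hf
      rw [hΛ]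
      exact (Nat.cast_nonneg _).trans (hH1 χ hχ).2
    rcases le_or_gt (345 / 1000 : ℝ) ε₀ with hle | hgt
    · refine ⟨?_, ?_, fun t ht => ⟨hval t ht, hord t ht⟩⟩
      · refine le_trans ?_ hSnn
        exact mul_nonpos_of_nonpos_of_nonneg
          (mul_nonpos_of_nonpos_of_nonneg (by linarith) hX0.le) hu0
      · refine le_trans ?_ hSnn
        exact mul_nonpos_of_nonpos_of_nonneg (by linarith) hznn
    · obtain ⟨k1, k2⟩ := num_FG hd0 hX0.le (by linarith) (by linarith) he0 (by linarith)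
        (by linarith : (345 / 1000 - ε₀) + 4 * e ≤ 345 / 1000)
        hn0.le hu0 hU3 (hH3.trans hw2) hzcU
      exact ⟨k1, k2, fun t ht => ⟨hval t ht, hord t ht⟩⟩

end Pool.Agent.H91.SM
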